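import Pool.Agent.Helper64.DT.Stmts

/-! Diamond-free circle graphs (MP_866009_co): module RZB. -/

set_option autoImplicit false

namespace Pool.Agent.Helper64.DT

open Pool.Agent.Helper64.CT
open Pool.Agent.Helper64.HG (Ovl Model Circ IC HellyCircle ChordModel)

theorem rzb_ne {a b c d : Bool} (h1 : a ≠ b) (h2 : c ≠ d) (h : b = d) : a = c := by
  revert h1 h2 h
  cases a <;> cases b <;> cases c <;> cases d <;> simp

theorem rzb_xor {a b c d a' b' c' d' : Bool} (h1 : xor (xor a b) (xor c d) = true)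
    (h2 : xor (xor a' b') (xor c' d') = true) (hb : b = b') (hc : c = c') (hd : d = d') :
    a = a' := by
  subst hb hc hd
  revert h1 h2
  cases a <;> cases b <;> cases c <;> cases d <;> cases a' <;> simp

theorem st_RZB (h1 : ST_GB1) (h2 : ST_GB2) (h3 : ST_GB3) : ST_RZB := by
  intro V G b T z l r w hb hz hT hp hM hR
  obtain ⟨p, hpT, hzp⟩ := hp
  have hzS : z ∈ insert z T := Set.mem_insert z T
  have hTS : ∀ x ∈ T, x ∈ insert z T := fun x hx => Set.mem_insert_of_mem z hx
  have hne : ∀ x ∈ T, x ≠ z := fun x hx e => hz (e ▸ hx)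
  -- the adjacent case
  have hadj : ∀ x ∈ T, G.Adj z x → b z x = bm l r w z x := by
    intro x hx hzx
    exact rzb_ne (hb.n1 z x hzx) (h1 V G (insert z T) l r w hM z hzS x (hTS x hx) hzx)
      (hR x hx z hzS (hne x hx).symm)
  have hstep : ∀ v ∈ T, ∀ v' ∈ T, G.Adj v v' → b z v = bm l r w z v →
      b z v' = bm l r w z v' := by
    intro v hv v' hv' hvv' hP
    by_cases hzv' : G.Adj z v'
    · exact hadj v' hv' hzv'
    by_cases hzv : G.Adj z v
    · have e1 := hb.n3 v z v' hzv.symm hvv' (hne v' hv').symm hzv'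
      have e2 := h3 V G (insert z T) l r w hM v (hTS v hv) z hzS v' (hTS v' hv') hzv.symm hvv'
        (hne v' hv').symm hzv'
      exact rzb_xor e1 e2 (hR v' hv' z hzS (hne v' hv').symm) (hR v hv z hzS (hne v hv).symm)
        (hR v hv v' (hTS v' hv') hvv'.ne.symm)
    · have f1 : v ∈ Far G z := ⟨hne v hv, hzv⟩
      have f2 : v' ∈ Far G z := ⟨hne v' hv', hzv'⟩
      have e1 := hb.n2 z v v' f1 f2 hvv'
      have e2 := (h2 V G (insert z T) l r w hM).2 z hzS v (hTS v hv) v' (hTS v' hv') f1 f2 hvv'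
      rw [← e1, ← e2, hP]
  have key : ∀ x : T, Relation.ReflTransGen (G.induce T).Adj ⟨p, hpT⟩ x →
      b z x.1 = bm l r w z x.1 := by
    intro x hx
    induction hx with
    | refl => exact hadj p hpT hzp
    | @tail c d _ hcd ih =>
      have hcd' : G.Adj c.1 d.1 := by simpa using hcd
      exact hstep c.1 c.2 d.1 d.2 hcd' ih
  intro x hx
  exact key ⟨x, hx⟩ ((SimpleGraph.reachable_iff_reflTransGen _ _).1 (hT ⟨p, hpT⟩ ⟨x, hx⟩))

end Pool.Agent.Helper64.DT
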